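import Pool.Agent.Run7.h762.FM.Iso

/-!
# The global theorem
-/

set_option autoImplicit false

namespace Pool.Agent.Run7.h762.GS

namespace Lat

variable {M : Type*} [AddCommGroup M] (L : Lat M)

theorem add_perp {v x z : M} (hx : L.b x v = 1) (hz : L.b z v = 0) : L.b (x + z) v = 1 := by
  rw [L.add_left, hx, hz, add_zero]

/-- **Isotropic vectors with product one.** -/
theorem global2 {v u y0 y1 w1 w2 : M} {s : ℤ} (hs : s ≠ 0) (hy0 : L.b y0 v = 1)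
    (huu : L.b u u = 0) (huv : L.b u v = 0) (hy1v : L.b y1 v = 0) (hy1u : L.b y1 u = s)
    (h1v : L.b w1 v = 0) (h1u : L.b w1 u = 0) (h2v : L.b w2 v = 0) (h2u : L.b w2 u = 0)
    (h12 : L.b w1 w2 = 0) (hw1 : L.b w1 w1 ≠ 0) (hw2 : L.b w2 w2 ≠ 0)
    (hloc : ∀ p : ℕ, p.Prime → L.LC2 v u p) :
    ∃ w : M, L.b w w = 0 ∧ L.b w v = 1 := by
  classical
  have h2s : 2 * s ≠ 0 := mul_ne_zero two_ne_zero hs
  set S : Finset ℕ := (2 * s).natAbs.primeFactors with hS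
  have hmemS : ∀ p : ℕ, p ∈ S ↔ p.Prime ∧ (p : ℤ) ∣ 2 * s := by
    intro p
    rw [hS, Nat.mem_primeFactors]
    constructor
    · rintro ⟨h1, h2, -⟩
      exact ⟨h1, Int.natCast_dvd.2 h2⟩
    · rintro ⟨h1, h2⟩
      exact ⟨h1, Int.natCast_dvd.1 h2, Int.natAbs_ne_zero.2 h2s⟩
  have h2S : 2 ∈ S := (hmemS 2).2 ⟨Nat.prime_two, by push_cast; exact dvd_mul_right _ _⟩
  have hprS : ∀ p ∈ S, p.Prime := fun p hp => ((hmemS p).1 hp).1
  have hloc' : ∀ p ∈ S, L.LC2 v u p := fun p hp => hloc p (hprS p hp)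
  unfold LC2 at hloc'
  choose! x j hx0 hx1 hx2 hx3 using hloc'
  have hcop : ∀ p ∈ S, ∀ q ∈ S, p ≠ q → IsCoprime (p : ℤ) (q : ℤ) := by
    intro p hp q hq hpq
    exact Nat.isCoprime_iff_coprime.2 ((Nat.coprime_primes (hprS p hp) (hprS q hq)).2 hpq)
  have hzp : ∀ p ∈ S, x p - y0 ∈ L.perp v := by
    intro p hp
    show L.b (x p - y0) v = 0
    rw [L.sub_left, hx0 p hp, hy0, sub_self]
  obtain ⟨Z, hZ⟩ := crt (M := L.perp v) S (fun p => (p : ℤ) ^ (j p + 3))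
    (fun p hp q hq hpq => (hcop p hp q hq hpq).pow)
    (fun p => if hp : p ∈ S then ⟨x p - y0, hzp p hp⟩ else 0)
  set X : M := y0 + (Z : M) with hXdef
  have hXv : L.b X v = 1 := L.add_perp hy0 Z.2
  have hX : ∀ p ∈ S, ∃ y : M, X = x p + (p : ℤ) ^ (j p + 3) • y := by
    intro p hp
    obtain ⟨y, hy⟩ := hZ p hp
    rw [dif_pos hp] at hy
    refine ⟨(y : M), ?_⟩
    have hy' : (Z : M) = (x p - y0) + (p : ℤ) ^ (j p + 3) • (y : M) := by
      have := congrArg Subtype.val hy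
      simpa using this
    rw [hXdef, hy']
    abel
  -- the properties of `X`
  have hX1 : ∀ p ∈ S, (p : ℤ) ^ j p ∣ L.b X u := by
    intro p hp
    obtain ⟨y, hy⟩ := hX p hp
    rw [hy, L.add_left, L.smul_left]
    exact dvd_add (hx1 p hp) ((pow_dvd_pow _ (by omega)).mul_right _)
  have hX2 : ∀ p ∈ S, ¬ (p : ℤ) ^ (j p + 1) ∣ L.b X u := by
    intro p hp h
    obtain ⟨y, hy⟩ := hX p hp
    rw [hy, L.add_left, L.smul_left] at h
    exact hx2 p hp ((dvd_add_left ((pow_dvd_pow _ (by omega)).mul_right _)).1 h)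
  have hX3 : ∀ p ∈ S, (p : ℤ) ^ (j p + if p = 2 then 1 else 0) ∣ L.b X X := by
    intro p hp
    obtain ⟨y, hy⟩ := hX p hp
    have h3 := L.sq_shift ((p : ℤ) ^ (j p + 3)) (x p) y
    rw [← hy] at h3
    have e1 : L.b X X = (L.b X X - L.b (x p) (x p)) + L.b (x p) (x p) := by ring
    rw [e1]
    refine dvd_add ((pow_dvd_pow _ ?_).trans h3) (hx3 p hp)
    split_ifs <;> omega
  -- the products
  set E : ℤ := ∏ p ∈ S, (p : ℤ) ^ j p with hE
  set C : ℤ := ∏ p ∈ S, (p : ℤ) ^ 3 with hC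
  have h4E : ∏ p ∈ S, (p : ℤ) ^ (j p + if p = 2 then 1 else 0) = 2 * E := by
    have e1 : ∀ p ∈ S, (p : ℤ) ^ (j p + if p = 2 then 1 else 0) =
        (p : ℤ) ^ j p * if p = 2 then 2 else 1 := by
      intro p _
      rw [pow_add]
      split_ifs with h
      · subst h
        norm_num
      · rw [pow_zero]
    rw [Finset.prod_congr rfl e1, Finset.prod_mul_distrib, Finset.prod_ite_eq' S 2, if_pos h2S,
      mul_comm]
  have hE0 : E ≠ 0 := Finset.prod_ne_zero_iff.2 fun p hp =>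
    pow_ne_zero _ (by exact_mod_cast (hprS p hp).ne_zero)
  have hC0 : C ≠ 0 := Finset.prod_ne_zero_iff.2 fun p hp =>
    pow_ne_zero _ (by exact_mod_cast (hprS p hp).ne_zero)
  have hEe : E ∣ L.b X u := Finset.prod_dvd_of_coprime
    (fun p hp q hq hpq => (hcop p hp q hq hpq).pow) hX1
  have hf4 : 2 * E ∣ L.b X X := by
    rw [← h4E]
    exact Finset.prod_dvd_of_coprime (fun p hp q hq hpq => (hcop p hp q hq hpq).pow) hX3
  obtain ⟨r, hr⟩ := hEe
  have hpr : ∀ p ∈ S, ¬ (p : ℤ) ∣ r := by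
    rintro p hp ⟨c, hc⟩
    apply hX2 p hp
    obtain ⟨d, hd⟩ : (p : ℤ) ^ j p ∣ E := Finset.dvd_prod_of_mem (fun p : ℕ => (p : ℤ) ^ j p) hp
    exact ⟨d * c, by rw [hr, hc, hd]; ring⟩
  have h2C : 2 ∣ C := by
    have h8 : ((2 : ℕ) : ℤ) ^ 3 ∣ C := Finset.dvd_prod_of_mem (fun p : ℕ => (p : ℤ) ^ 3) h2S
    exact (by norm_num : (2 : ℤ) ∣ ((2 : ℕ) : ℤ) ^ 3).trans h8
  have hEC : 2 * E ∣ E * C := by
    rw [mul_comm 2 E]
    exact mul_dvd_mul_left E h2C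
  -- Dirichlet
  set Q : ℤ := s * C with hQ
  have hQ0 : Q ≠ 0 := mul_ne_zero hs hC0
  have hco : IsCoprime (Q.natAbs : ℤ) r := by
    rw [Int.isCoprime_iff_gcd_eq_one, Int.gcd_eq_natAbs, Int.natAbs_natCast]
    refine Nat.Coprime.gcd_eq_one (Nat.Coprime.symm ?_)
    refine Nat.coprime_of_dvd' fun p hp hpu1 hpQ => ?_
    exfalso
    have hpu2 : (p : ℤ) ∣ r := Int.natCast_dvd.2 hpu1
    have hpQ2 : (p : ℤ) ∣ s * C := Int.natCast_dvd.2 hpQ
    rcases (Nat.prime_iff_prime_int.1 hp).dvd_or_dvd hpQ2 with h | h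
    · exact hpr p ((hmemS p).2 ⟨hp, h.mul_left _⟩) hpu2
    · obtain ⟨q, hq, hpq⟩ := (Nat.prime_iff_prime_int.1 hp).exists_mem_finset_dvd h
      have h3 : (p : ℤ) ∣ (q : ℤ) := (Nat.prime_iff_prime_int.1 hp).dvd_of_dvd_pow hpq
      have h4 : p ∣ q := by exact_mod_cast h3
      have h5 : p = q := (Nat.prime_dvd_prime_iff_eq hp (hprS q hq)).1 h4
      exact hpr p (h5 ▸ hq) hpu2
  have hunit : IsUnit ((r : ℤ) : ZMod Q.natAbs) := (ZMod.coe_int_isUnit_iff_isCoprime r _).2 hco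
  have : NeZero Q.natAbs := ⟨Int.natAbs_ne_zero.2 hQ0⟩
  set P : ℤ := E * C with hP
  have hP0 : P ≠ 0 := mul_ne_zero hE0 hC0
  set R : ℤ := 2 * P ^ 2 * L.b w1 w1 * L.b w2 w2 with hR
  have hR0 : R ≠ 0 := mul_ne_zero (mul_ne_zero (mul_ne_zero two_ne_zero (pow_ne_zero 2 hP0)) hw1) hw2
  obtain ⟨q, hqR, hq, hqu⟩ := Nat.forall_exists_prime_gt_and_eq_mod hunit R.natAbs
  have hqI := Nat.prime_iff_prime_int.1 hq
  have hqnR : ¬ (q : ℤ) ∣ R := by
    intro h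
    have h3 := Nat.le_of_dvd (Int.natAbs_pos.2 hR0) (Int.natCast_dvd.1 h)
    omega
  obtain ⟨t, ht⟩ : Q ∣ (q : ℤ) - r := by
    have h3 : ((r : ℤ) : ZMod Q.natAbs) = ((q : ℤ) : ZMod Q.natAbs) := by
      rw [← hqu]
      push_cast
      rfl
    have h4 := (ZMod.intCast_eq_intCast_iff_dvd_sub r (q : ℤ) Q.natAbs).1 h3
    exact Int.natAbs_dvd.1 h4
  -- the first correction
  set x1 : M := X + P • (t • y1) with hx1'
  have hx1v : L.b x1 v = 1 := by
    rw [hx1', L.add_left, L.smul_left, L.smul_left, hXv, hy1v]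
    ring
  have he1 : L.b x1 u = E * q := by
    rw [hx1', L.add_left, L.smul_left, L.smul_left, hy1u, hr, hP]
    have : (q : ℤ) = r + s * C * t := by rw [← hQ]; linear_combination ht
    rw [this]
    ring
  have hf1 : 2 * E ∣ L.b x1 x1 := by
    have h3 := L.sq_shift P X (t • y1)
    have e1 : L.b x1 x1 = (L.b x1 x1 - L.b X X) + L.b X X := by ring
    rw [e1]
    exact dvd_add (hEC.trans h3) hf4
  clear_value x1
  -- the second correction
  have hq2 : q ≠ 2 := by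
    rintro rfl
    apply hqnR
    rw [hR]
    exact ⟨P ^ 2 * L.b w1 w1 * L.b w2 w2, by push_cast; ring⟩
  have := Fact.mk hq
  obtain ⟨α, β, hαβ⟩ := two_var q hq2 (P ^ 2 * L.b w1 w1) (P ^ 2 * L.b w2 w2)
    (2 * P * L.b x1 w1) (L.b x1 x1) (2 * P * L.b x1 w2)
    (fun h => hqnR (by
      have : R = P ^ 2 * L.b w1 w1 * (2 * L.b w2 w2) := by rw [hR]; ring
      rw [this]
      exact h.mul_right _))
    (fun h => hqnR (by
      have : R = P ^ 2 * L.b w2 w2 * (2 * L.b w1 w1) := by rw [hR]; ring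
      rw [this]
      exact h.mul_right _))
  set x2 : M := x1 + P • (α • w1 + β • w2) with hx2'
  have hx2v : L.b x2 v = 1 := by
    rw [hx2', L.add_left, L.smul_left, L.add_left, L.smul_left, L.smul_left, h1v, h2v, hx1v]
    ring
  have he2 : L.b x2 u = E * q := by
    rw [hx2', L.add_left, L.smul_left, L.add_left, L.smul_left, L.smul_left, h1u, h2u, he1]
    ring
  have hf2 : 2 * E ∣ L.b x2 x2 := by
    have h3 := L.sq_shift P x1 (α • w1 + β • w2)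
    have e1 : L.b x2 x2 = (L.b x2 x2 - L.b x1 x1) + L.b x1 x1 := by ring
    rw [e1]
    exact dvd_add (hEC.trans h3) hf1
  have hq3 : (q : ℤ) ∣ L.b x2 x2 := by
    have e1 : L.b x2 x2 = P ^ 2 * L.b w1 w1 * α ^ 2 + 2 * P * L.b x1 w1 * α +
        L.b x1 x1 + (P ^ 2 * L.b w2 w2 * β ^ 2 + 2 * P * L.b x1 w2 * β) := by
      rw [hx2', L.sq_add_smul]
      simp only [L.add_right, L.add_left, L.smul_right, L.smul_left, h12, L.comm w2 w1]
      ring
    rw [e1]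
    exact hαβ
  have hcoq : IsCoprime (2 * E) (q : ℤ) := by
    refine (hqI.coprime_iff_not_dvd.2 fun h => hqnR ?_).symm
    have h3 : (q : ℤ) ∣ P := h.trans hEC
    rw [hR]
    refine Dvd.dvd.mul_right (Dvd.dvd.mul_right (Dvd.dvd.mul_left ?_ _) _) _
    exact h3.trans (dvd_pow_self _ two_ne_zero)
  clear_value x2
  obtain ⟨k, hk⟩ : 2 * E * q ∣ L.b x2 x2 := hcoq.mul_dvd hf2 hq3
  refine ⟨x2 + (-k) • u, ?_, ?_⟩
  · rw [L.sq_add_smul, huu, he2, hk]
    ring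
  · rw [L.add_left, L.smul_left, huv, hx2v]
    ring

/-- **The general theorem.** An even lattice with a hyperbolic plane, a vector `v` with
`v.v ≠ 0` whose products have greatest common divisor one, and an isotropic vector `u` in its
orthogonal complement. -/
theorem fine {e f v u y0 z0 z1 w1 w2 : M} (he : L.b e e = 0) (hf : L.b f f = 0)
    (hef : L.b e f = 1) (hz0e : L.b z0 e = 0) (hz0f : L.b z0 f = 0) (hz0 : L.b z0 z0 ≠ 0)
    (hy0 : L.b y0 v = 1) (hvv : L.b v v ≠ 0)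
    (huu : L.b u u = 0) (huv : L.b u v = 0) (hz1 : L.b z1 u ≠ 0)
    (h1v : L.b w1 v = 0) (h1u : L.b w1 u = 0) (h2v : L.b w2 v = 0) (h2u : L.b w2 u = 0)
    (h12 : L.b w1 w2 = 0) (hw1 : L.b w1 w1 ≠ 0) (hw2 : L.b w2 w2 ≠ 0) :
    ∃ w : M, L.b w w = 0 ∧ L.b w v = 1 := by
  have hloc : ∀ p : ℕ, p.Prime → L.LC2 v u p := by
    intro p hp
    obtain ⟨x, hx, hxv, hxu⟩ := L.exists_iso_at (z0 := z0) he hf hef hy0 hz0e hz0f hz0 hz1 hp
    exact L.lc2_of_iso hy0 hp hx hxv hxu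
  obtain ⟨y1, hy1v, hy1u⟩ : ∃ y1, L.b y1 v = 0 ∧ L.b y1 u ≠ 0 := by
    by_cases h0 : L.b y0 u = 0
    · refine ⟨z1 - L.b z1 v • y0, ?_, ?_⟩
      · rw [L.sub_left, L.smul_left, hy0]
        ring
      · rw [L.sub_left, L.smul_left, h0]
        simpa using hz1
    · refine ⟨v - L.b v v • y0, ?_, ?_⟩
      · rw [L.sub_left, L.smul_left, hy0]
        ring
      · rw [L.sub_left, L.smul_left, L.comm v u, huv, zero_sub]
        exact neg_ne_zero.2 (mul_ne_zero hvv h0)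
  exact L.global2 hy1u hy0 huu huv hy1v rfl h1v h1u h2v h2u h12 hw1 hw2 hloc

/-- the case `v.v = 0` -/
theorem fine_zero {v y0 : M} (hy0 : L.b y0 v = 1) (hvv : L.b v v = 0) :
    ∃ w : M, L.b w w = 0 ∧ L.b w v = 1 := by
  obtain ⟨k, hk⟩ := L.even y0
  refine ⟨y0 + (-k) • v, ?_, ?_⟩
  · rw [L.sq_add_smul, hy0, hvv, hk]
    ring
  · rw [L.add_left, L.smul_left, hvv, hy0]
    ring

end Lat

end Pool.Agent.Run7.h762.GS
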