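import Pool.Agent.Run7.h762.GS.Glob

/-!
# Isotropic vectors of an even lattice with product one with a given vector

Let `L` be an even lattice that contains a hyperbolic plane, and let `v` be a vector whose products
with all vectors of `L` have greatest common divisor one. If the orthogonal complement of `v`
contains an isotropic vector (and has rank at least four), then there is an isotropic vector `w`
with `w.v = 1`.
-/

set_option autoImplicit false

namespace Pool.Agent.Run7.h762.GS

namespace Lat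

variable {M : Type*} [AddCommGroup M] (L : Lat M)

theorem b_zero_left (v : M) : L.b 0 v = 0 := by
  rw [L.comm, L.b_zero_right]

theorem neg_left (v w : M) : L.b (-v) w = -L.b v w := by
  have := L.smul_left (-1) v w
  rw [neg_one_smul] at this
  rw [this]
  ring

theorem neg_right (v w : M) : L.b v (-w) = -L.b v w := by
  rw [L.comm, L.neg_left, L.comm]

theorem sub_left (u v w : M) : L.b (u - v) w = L.b u w - L.b v w := by
  rw [sub_eq_add_neg, L.add_left, L.neg_left]
  ring

theorem sub_right (u v w : M) : L.b u (v - w) = L.b u v - L.b u w := by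
  rw [L.comm, L.sub_left, L.comm v, L.comm w]

theorem sq_add_smul (n : ℤ) (x y : M) :
    L.b (x + n • y) (x + n • y) = L.b x x + n * (2 * L.b x y + n * L.b y y) := by
  rw [L.add_left, L.add_right, L.add_right, L.smul_left, L.smul_left, L.smul_right, L.smul_right,
    L.comm y x]
  ring

theorem sq_shift (n : ℤ) (x y : M) : n ∣ L.b (x + n • y) (x + n • y) - L.b x x :=
  ⟨2 * L.b x y + n * L.b y y, by rw [L.sq_add_smul]; ring⟩

/-- the orthogonal complement of a vector -/
def perp (v : M) : AddSubgroup M where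
  carrier := {z | L.b z v = 0}
  add_mem' := by
    intro a b ha hb
    show L.b (a + b) v = 0
    rw [L.add_left, show L.b a v = 0 from ha, show L.b b v = 0 from hb, add_zero]
  zero_mem' := L.b_zero_left v
  neg_mem' := by
    intro a ha
    show L.b (-a) v = 0
    rw [L.neg_left, show L.b a v = 0 from ha, neg_zero]

/-- the local condition at `p` -/
def LC2 (v u : M) (p : ℕ) : Prop := ∃ (x : M) (j : ℕ), L.b x v = 1 ∧ (p : ℤ) ^ j ∣ L.b x u ∧
  ¬ (p : ℤ) ^ (j + 1) ∣ L.b x u ∧ (p : ℤ) ^ (j + if p = 2 then 1 else 0) ∣ L.b x x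

/-- the local condition follows from an isotropic vector whose product with `v` is a unit -/
theorem lc2_of_iso {v u y0 e : M} (hy0 : L.b y0 v = 1) {p : ℕ} (hp : p.Prime) (he : L.b e e = 0)
    (hev : ¬ (p : ℤ) ∣ L.b e v) (heu : L.b e u ≠ 0) : L.LC2 v u p := by
  obtain ⟨j, h1, h2⟩ := exists_exact' p hp _ heu
  obtain ⟨c, hc⟩ := exists_inv p hp (j + 2) (L.b e v) hev
  have hpp := Nat.prime_iff_prime_int.1 hp
  have hc0 : ¬ (p : ℤ) ∣ c := by
    intro h
    have h3 : (p : ℤ) ∣ L.b e v * c - 1 := (dvd_pow_self _ (by omega)).trans hc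
    have h4 : (p : ℤ) ∣ 1 := by
      have := dvd_sub (h.mul_left (L.b e v)) h3
      rwa [sub_sub_cancel] at this
    exact hpp.not_dvd_one h4
  have hd : (p : ℤ) ^ (j + 2) ∣ 1 - c * L.b e v := by
    have : 1 - c * L.b e v = -(L.b e v * c - 1) := by ring
    rw [this, dvd_neg]
    exact hc
  refine ⟨c • e + (1 - c * L.b e v) • y0, j, ?_, ?_, ?_, ?_⟩
  · rw [L.add_left, L.smul_left, L.smul_left, hy0]
    ring
  · rw [L.add_left, L.smul_left, L.smul_left]
    exact dvd_add (h1.mul_left _) (((pow_dvd_pow _ (by omega)).trans hd).mul_right _)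
  · rw [L.add_left, L.smul_left, L.smul_left]
    intro h
    have h5 := (dvd_add_left (((pow_dvd_pow _ (by omega)).trans hd).mul_right (L.b y0 u))).1 h
    exact h2 ((hpp.coprime_iff_not_dvd.2 hc0).pow_left.dvd_of_dvd_mul_left h5)
  · rw [L.sq_add_smul, L.smul_left, L.smul_right, he]
    have h5 : (p : ℤ) ^ (j + if p = 2 then 1 else 0) ∣ 1 - c * L.b e v := by
      refine (pow_dvd_pow _ ?_).trans hd
      split_ifs <;> omega
    simp only [mul_zero, zero_add]
    exact h5.mul_right _

/-- a suitable isotropic vector for every prime number -/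
theorem exists_iso_at {e f v u y0 z0 : M} (he : L.b e e = 0) (hf : L.b f f = 0)
    (hef : L.b e f = 1) (hy0 : L.b y0 v = 1) (hz0e : L.b z0 e = 0) (hz0f : L.b z0 f = 0)
    (hz0 : L.b z0 z0 ≠ 0) {z1 : M} (hz1 : L.b z1 u ≠ 0) {p : ℕ} (hp : p.Prime) :
    ∃ x, L.b x x = 0 ∧ ¬ (p : ℤ) ∣ L.b x v ∧ L.b x u ≠ 0 := by
  have hpp := Nat.prime_iff_prime_int.1 hp
  have hp0 : (p : ℤ) ≠ 0 := by exact_mod_cast hp.ne_zero
  -- first step
  have step1 : ∃ e1 f1 z2 : M, L.b e1 e1 = 0 ∧ L.b f1 f1 = 0 ∧ L.b e1 f1 = 1 ∧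
      L.b z2 e1 = 0 ∧ L.b z2 f1 = 0 ∧ L.b z2 z2 ≠ 0 ∧ ¬ (p : ℤ) ∣ L.b e1 v := by
    by_cases h1 : (p : ℤ) ∣ L.b e v
    · by_cases h2 : (p : ℤ) ∣ L.b f v
      · obtain ⟨z, hz, hzf, hzv, hze⟩ : ∃ z, z = y0 - L.b y0 f • e - L.b y0 e • f ∧ L.b z f = 0 ∧
            L.b z v = 1 - L.b y0 f * L.b e v - L.b y0 e * L.b f v ∧ L.b z e = 0 := by
          refine ⟨_, rfl, ?_, ?_, ?_⟩
          · rw [L.sub_left, L.sub_left, L.smul_left, L.smul_left, hef, hf]
            ring
          · rw [L.sub_left, L.sub_left, L.smul_left, L.smul_left, hy0]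
          · rw [L.sub_left, L.sub_left, L.smul_left, L.smul_left, he, L.comm f e, hef]
            ring
        obtain ⟨k, hk⟩ := L.even z
        -- the vector `z0` is corrected as well
        refine ⟨e + z - k • f, f, z0 - L.b z0 z • f, ?_, hf, ?_, ?_, ?_, ?_, ?_⟩
        · simp only [L.sub_left, L.sub_right, L.add_left, L.add_right, L.smul_left, L.smul_right,
            he, hf, hef, hze, hzf, L.comm e z, L.comm f e, L.comm f z, hk]
          ring
        · simp only [L.sub_left, L.add_left, L.smul_left, hef, hf, hzf]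
          ring
        · simp only [L.sub_left, L.sub_right, L.add_right, L.smul_left, L.smul_right,
            hf, hef, hz0e, hz0f, hzf, L.comm f e, L.comm f z]
          ring
        · simp only [L.sub_left, L.smul_left, hz0f, hf]
          ring
        · simp only [L.sub_left, L.sub_right, L.smul_left, L.smul_right, hz0f, hf, L.comm f z0]
          simpa using hz0
        · simp only [L.sub_left, L.add_left, L.smul_left, hzv]
          intro h
          apply hpp.not_dvd_one
          have e1 : (1 : ℤ) = (L.b e v + (1 - L.b y0 f * L.b e v - L.b y0 e * L.b f v) -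
              k * L.b f v) - L.b e v * (1 - L.b y0 f) + (L.b y0 e + k) * L.b f v := by ring
          rw [e1]
          exact dvd_add (dvd_sub h (h1.mul_right _)) (h2.mul_left _)
      · exact ⟨f, e, z0, hf, he, by rw [L.comm, hef], hz0f, hz0e, hz0, h2⟩
    · exact ⟨e, f, z0, he, hf, hef, hz0e, hz0f, hz0, h1⟩
  obtain ⟨e1, f1, z2, he1, hf1, hef1, hz2e, hz2f, hz2, hev⟩ := step1
  -- second step: Eichler transformations by multiples of `p`
  have trans : ∀ z : M, L.b z e1 = 0 → L.b z f1 = 0 →
      ∃ x, L.b x x = 0 ∧ ¬ (p : ℤ) ∣ L.b x v ∧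
        2 * L.b x u = 2 * L.b e1 u + p * (2 * L.b z u) - p ^ 2 * L.b z z * L.b f1 u := by
    intro z hze hzf
    obtain ⟨k, hk⟩ := L.even z
    refine ⟨e1 + (p : ℤ) • z - ((p : ℤ) ^ 2 * k) • f1, ?_, ?_, ?_⟩
    · simp only [L.sub_left, L.sub_right, L.add_left, L.add_right, L.smul_left, L.smul_right,
        he1, hf1, hef1, hze, hzf, L.comm e1 z, L.comm f1 e1, L.comm f1 z, hk]
      ring
    · simp only [L.sub_left, L.add_left, L.smul_left]
      intro h
      apply hev
      have e1' : L.b e1 v = (L.b e1 v + p * L.b z v - p ^ 2 * k * L.b f1 v) -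
          p * (L.b z v - p * k * L.b f1 v) := by ring
      rw [e1']
      exact dvd_sub h (dvd_mul_right _ _)
    · simp only [L.sub_left, L.add_left, L.smul_left, hk]
      ring
  by_cases h0 : L.b e1 u = 0
  · by_cases h1 : L.b f1 u = 0
    · obtain ⟨x, hx, hxv, hxu⟩ := trans (z1 - L.b z1 f1 • e1 - L.b z1 e1 • f1)
        (by rw [L.sub_left, L.sub_left, L.smul_left, L.smul_left, he1, L.comm f1 e1, hef1]; ring)
        (by rw [L.sub_left, L.sub_left, L.smul_left, L.smul_left, hef1, hf1]; ring)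
      refine ⟨x, hx, hxv, fun h => ?_⟩
      rw [h, h0, h1] at hxu
      have h5 : L.b (z1 - L.b z1 f1 • e1 - L.b z1 e1 • f1) u = L.b z1 u := by
        rw [L.sub_left, L.sub_left, L.smul_left, L.smul_left, h0, h1]
        ring
      rw [h5] at hxu
      have h6 : (p : ℤ) * (2 * L.b z1 u) ≠ 0 :=
        mul_ne_zero hp0 (mul_ne_zero two_ne_zero hz1)
      apply h6
      linarith
    · obtain ⟨x, hx, hxv, hxu⟩ := trans z2 hz2e hz2f
      obtain ⟨x', hx', hxv', hxu'⟩ := trans (-z2) (by rw [L.neg_left, hz2e, neg_zero])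
        (by rw [L.neg_left, hz2f, neg_zero])
      rw [h0] at hxu hxu'
      rw [L.neg_left, L.neg_left, L.neg_right] at hxu'
      by_cases h2 : L.b x u = 0
      · refine ⟨x', hx', hxv', fun h3 => ?_⟩
        rw [h2] at hxu
        rw [h3] at hxu'
        have h6 : (p : ℤ) ^ 2 * L.b z2 z2 * L.b f1 u ≠ 0 :=
          mul_ne_zero (mul_ne_zero (pow_ne_zero 2 hp0) hz2) h1
        apply h6
        linarith
      · exact ⟨x, hx, hxv, h2⟩
  · exact ⟨e1, he1, hev, h0⟩

end Lat

end Pool.Agent.Run7.h762.GS
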