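import Pool.Agent.Run7.h762.FM.Sig

/-!
# Fine moduli spaces on K3 surfaces: definitions and the lattice theorem
-/

set_option autoImplicit false

namespace Pool.Agent.Run7.h762.FM

open Module Pool.Agent.Run7.h762.GS

/-- The Néron-Severi lattice `N` of a projective K3 surface: an even symmetric bilinear form, an ample
class, and the Hodge index theorem. -/
structure NSLattice (N : Type) [AddCommGroup N] where
  /-- the intersection form -/
  int : N → N → ℤ
  add_left : ∀ u v w, int (u + v) w = int u w + int v w
  comm : ∀ v w, int v w = int w v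
  even : ∀ v, 2 ∣ int v v
  /-- an ample class -/
  ample : N
  pos : 0 < int ample ample
  index : ∀ D, D ≠ 0 → int D ample = 0 → int D D < 0

variable {N : Type} [AddCommGroup N] (P : NSLattice N)

theorem NSLattice.zero_left (v : N) : P.int 0 v = 0 := by
  have := P.add_left 0 0 v
  rw [add_zero] at this
  linarith

theorem NSLattice.neg_left (u v : N) : P.int (-u) v = -P.int u v := by
  have := P.add_left u (-u) v
  rw [add_neg_cancel, P.zero_left] at this
  linarith

theorem NSLattice.smul_left (n : ℤ) (u v : N) : P.int (n • u) v = n * P.int u v := by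
  let φ : N →+ ℤ :=
    { toFun := fun w => P.int w v
      map_zero' := P.zero_left v
      map_add' := fun a b => P.add_left a b v }
  have h := map_zsmul φ n u
  rw [smul_eq_mul] at h
  exact h

/-- The Mukai pairing on `H⁰ ⊕ NS ⊕ H⁴`: the product of `(r, D, s)` and `(r', D', s')` is
`D.D' - r s' - s r'`. -/
def NSLattice.mukai (x y : ℤ × N × ℤ) : ℤ := P.int x.2.1 y.2.1 - x.1 * y.2.2 - x.2.2 * y.1

/-- the algebraic Mukai lattice -/
def NSLattice.lat : Lat (ℤ × N × ℤ) where
  b := P.mukai
  add_left u v w := by
    simp only [NSLattice.mukai, Prod.fst_add, Prod.snd_add, P.add_left]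
    ring
  smul_left n v w := by
    simp only [NSLattice.mukai, Prod.smul_fst, Prod.smul_snd, P.smul_left, smul_eq_mul]
    ring
  comm v w := by
    simp only [NSLattice.mukai, P.comm v.2.1 w.2.1]
    ring
  even v := by
    have := P.even v.2.1
    simp only [NSLattice.mukai]
    have e : v.1 * v.2.2 = v.2.2 * v.1 := by ring
    omega

/-- The class `v` is fine: the greatest common divisor of its products is one. -/
def NSLattice.IsFine (v : ℤ × N × ℤ) : Prop := ∃ y, P.mukai y v = 1

/-- **Fine classes have product one with an isotropic class** if the Picard number is at least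
four. -/
theorem NSLattice.fine [Module.Free ℤ N] [Module.Finite ℤ N] (h4 : 4 ≤ finrank ℤ N)
    {v : ℤ × N × ℤ} (hv : P.IsFine v) : ∃ w, P.mukai w w = 0 ∧ P.mukai w v = 1 := by
  obtain ⟨y, hy⟩ := hv
  have h6 : 6 ≤ finrank ℤ (ℤ × N × ℤ) := by
    rw [Module.finrank_prod, Module.finrank_prod, Module.finrank_self]
    omega
  refine P.lat.fine_sig (p1 := ((1, 0, -1) : ℤ × N × ℤ)) (p2 := ((0, P.ample, 0) : ℤ × N × ℤ))
    (e := ((0, 0, 1) : ℤ × N × ℤ)) (f := ((-1, 0, 0) : ℤ × N × ℤ)) (y0 := y) h6
    ?_ ?_ ?_ ?_ ?_ ?_ ?_ hy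
  · show 0 < P.int 0 0 - 1 * -1 - -1 * 1
    rw [P.zero_left]
    norm_num
  · show 0 < P.int P.ample P.ample - 0 * 0 - 0 * 0
    have := P.pos
    omega
  · show P.int 0 P.ample - 1 * 0 - -1 * 0 = 0
    rw [P.zero_left]
    norm_num
  · rintro ⟨r, D, s⟩ hx h1 h2
    have h1' : P.int D 0 - r * -1 - s * 1 = 0 := h1
    have h2' : P.int D P.ample - r * 0 - s * 0 = 0 := h2
    rw [P.comm, P.zero_left] at h1'
    have hrs : s = r := by linarith
    subst hrs
    show P.int D D - s * s - s * s < 0
    by_cases hD : D = 0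
    · subst hD
      have hs : s ≠ 0 := by
        rintro rfl
        exact hx rfl
      rw [P.zero_left]
      have : 0 < s * s := mul_self_pos.2 hs
      omega
    · have h3 := P.index D hD (by linarith)
      have : 0 ≤ s * s := mul_self_nonneg s
      omega
  · show P.int 0 0 - 0 * 1 - 1 * 0 = 0
    rw [P.zero_left]
    norm_num
  · show P.int 0 0 - -1 * 0 - 0 * -1 = 0
    rw [P.zero_left]
    norm_num
  · show P.int 0 0 - 0 * 0 - 1 * -1 = 1
    rw [P.zero_left]
    norm_num

/-- Projective K3 surfaces over the complex numbers, the Hilbert schemes of points on them and the moduli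
spaces of stable objects in their derived categories: the data. -/
structure K3Data where
  /-- the projective K3 surfaces -/
  Surf : Type
  /-- the Néron-Severi groups -/
  NS : Surf → Type
  [grp : ∀ S, AddCommGroup (NS S)]
  [free : ∀ S, Module.Free ℤ (NS S)]
  [fin : ∀ S, Module.Finite ℤ (NS S)]
  /-- the intersection form and an ample class -/
  ns : ∀ S, NSLattice (NS S)
  /-- the smooth projective complex varieties -/
  Var : Type
  /-- a K3 surface as a variety -/
  surf : Surf → Var
  /-- the Hilbert scheme `S^[n]` -/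
  hilb : Surf → ℕ → Var
  /-- `M` is the moduli space of `σ`-stable objects with Mukai vector `v` in the derived category of `S`, for
  a Bridgeland stability condition `σ` which is generic for `v` (for example the moduli space of stable
  sheaves with Mukai vector `v` for a generic polarization) -/
  IsModuli : (S : Surf) → ℤ × NS S × ℤ → Var → Prop
  /-- the derived categories are equivalent -/
  Derived : Var → Var → Prop
  /-- birational varieties -/
  Birational : Var → Var → Prop
  /-- the Chow motives with rational coefficients are isomorphic -/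
  Motive : Var → Var → Prop

attribute [instance] K3Data.grp K3Data.free K3Data.fin

variable (T : K3Data)

/-- The Picard number. -/
noncomputable def K3Data.rho (S : T.Surf) : ℕ := finrank ℤ (T.NS S)

/-- The square of a Mukai vector. -/
def K3Data.sq (S : T.Surf) (v : ℤ × T.NS S × ℤ) : ℤ := (T.ns S).mukai v v

/-- The known facts.

* `torelli` (Mukai, Orlov, Bayer-Macrì, Markman, Verbitsky): if the Mukai vector `v` of a moduli space `M`,
  `v.v = 2 n - 2 ≥ 2`, has the product one with an isotropic class of the algebraic Mukai lattice, then `M`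
  is birational to the Hilbert scheme `S'^[n]` of a K3 surface `S'` derived equivalent to `S`.
* `riess` (Rieß): birational projective hyperkähler manifolds have isomorphic Chow motives.
* `huybrechts`: derived equivalent K3 surfaces, and their Hilbert schemes, have isomorphic Chow motives.
* the relations `Derived` and `Motive` are symmetric and transitive. -/
structure K3Data.Known : Prop where
  torelli : ∀ (S : T.Surf) (v : ℤ × T.NS S × ℤ) (M : T.Var), T.IsModuli S v M →
    2 ≤ T.sq S v → (∃ w, (T.ns S).mukai w w = 0 ∧ (T.ns S).mukai w v = 1) →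
    ∃ (S' : T.Surf) (n : ℕ), T.sq S v = 2 * n - 2 ∧ T.Derived (T.surf S) (T.surf S') ∧
      T.Birational M (T.hilb S' n)
  riess : ∀ (S : T.Surf) (v : ℤ × T.NS S × ℤ) (M : T.Var) (S' : T.Surf) (n : ℕ),
    T.IsModuli S v M → T.Birational M (T.hilb S' n) → T.Motive M (T.hilb S' n)
  huybrechts : ∀ (S S' : T.Surf) (n : ℕ), T.Derived (T.surf S) (T.surf S') →
    T.Motive (T.hilb S n) (T.hilb S' n)
  motive_symm : ∀ A B, T.Motive A B → T.Motive B A
  motive_trans : ∀ A B C, T.Motive A B → T.Motive B C → T.Motive A C

theorem K3Data.main {T : K3Data} (hT : T.Known) (S : T.Surf) (h4 : 4 ≤ T.rho S)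
    (v : ℤ × T.NS S × ℤ) (hv : (T.ns S).IsFine v) (M : T.Var) (hM : T.IsModuli S v M)
    (h2 : 2 ≤ T.sq S v) : ∃ (S' : T.Surf) (n : ℕ), T.sq S v = 2 * n - 2 ∧
      T.Derived (T.surf S) (T.surf S') ∧ T.Birational M (T.hilb S' n) ∧
      T.Motive M (T.hilb S n) := by
  obtain ⟨S', n, h1, h3, h5⟩ := hT.torelli S v M hM h2 ((T.ns S).fine h4 hv)
  refine ⟨S', n, h1, h3, h5, ?_⟩
  exact hT.motive_trans _ _ _ (hT.riess S v M S' n hM h5)
    (hT.motive_symm _ _ (hT.huybrechts S S' n h3))

theorem K3Data.orlov {T : K3Data} (hT : T.Known) (S S' : T.Surf) (h4 : 4 ≤ T.rho S)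
    (h4' : 4 ≤ T.rho S') (hSS : T.Derived (T.surf S) (T.surf S'))
    (v : ℤ × T.NS S × ℤ) (v' : ℤ × T.NS S' × ℤ) (hv : (T.ns S).IsFine v)
    (hv' : (T.ns S').IsFine v') (M M' : T.Var) (hM : T.IsModuli S v M)
    (hM' : T.IsModuli S' v' M') (h2 : 2 ≤ T.sq S v) (hsq : T.sq S v = T.sq S' v') :
    T.Motive M M' := by
  obtain ⟨_, n, h1, -, -, h3⟩ := K3Data.main hT S h4 v hv M hM h2
  obtain ⟨_, n', h1', -, -, h3'⟩ := K3Data.main hT S' h4' v' hv' M' hM' (hsq ▸ h2)
  have hn : n = n' := by omega
  subst hn
  exact hT.motive_trans _ _ _ h3 (hT.motive_trans _ _ _ (hT.huybrechts S S' n hSS)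
    (hT.motive_symm _ _ h3'))

end Pool.Agent.Run7.h762.FM
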