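import Pool.Agent.Run7.h762.FM.Glob2
import Pool.Agent.R847.QB.Meyer
import Pool.Agent.R847.QB.Iso
import Pool.Agent.R847.QB.Dir

/-!
# Isotropic vectors from five orthogonal vectors (Meyer)
-/

set_option autoImplicit false

namespace Pool.Agent.Run7.h762.GS

namespace Lat

variable {M : Type*} [AddCommGroup M] (L : Lat M)

theorem b_sum_right {ι : Type*} (s : Finset ι) (v : M) (n : ι → M) :
    L.b v (∑ i ∈ s, n i) = ∑ i ∈ s, L.b v (n i) := by
  classical
  induction s using Finset.induction_on with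
  | empty => simp [L.b_zero_right]
  | insert a s ha ih => rw [Finset.sum_insert ha, Finset.sum_insert ha, L.add_right, ih]

/-- five orthogonal vectors with norms of both signs -/
theorem five {n : Fin 5 → M} (hn : ∀ i j, i ≠ j → L.b (n i) (n j) = 0)
    (h0 : ∀ i, L.b (n i) (n i) ≠ 0) (hpos : ∃ i, 0 < L.b (n i) (n i))
    (hneg : ∃ i, L.b (n i) (n i) < 0) : ∃ (y : Fin 5 → ℤ) (i : Fin 5),
      L.b (∑ j, y j • n j) (∑ j, y j • n j) = 0 ∧ L.b (n i) (∑ j, y j • n j) ≠ 0 := by
  obtain ⟨x, hx0, hx⟩ := Pool.Agent.R847.QB.meyer Pool.Agent.R847.QB.iso_ Pool.Agent.R847.QB.dir_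
    (fun i => L.b (n i) (n i)) h0 hpos hneg
  set D : ℤ := ∏ i, ((x i).den : ℤ) with hD
  have hD0 : D ≠ 0 := Finset.prod_ne_zero_iff.2 fun i _ => by
    exact_mod_cast (x i).den_ne_zero
  have hy : ∀ i, ∃ y : ℤ, (y : ℚ) = D * x i := by
    intro i
    obtain ⟨c, hc⟩ : ((x i).den : ℤ) ∣ D := Finset.dvd_prod_of_mem _ (Finset.mem_univ i)
    refine ⟨c * (x i).num, ?_⟩
    rw [hc]
    push_cast
    have h1 : (x i) * ((x i).den : ℚ) = (x i).num := Rat.mul_den_eq_num (x i)
    linear_combination -(c : ℚ) * h1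
  choose y hyx using hy
  have hb : ∀ i, L.b (n i) (∑ j, y j • n j) = y i * L.b (n i) (n i) := by
    intro i
    rw [L.b_sum_right, Finset.sum_eq_single i]
    · rw [L.smul_right]
    · intro j _ hj
      rw [L.smul_right, hn i j (Ne.symm hj), mul_zero]
    · intro h
      exact absurd (Finset.mem_univ i) h
  have hsq : L.b (∑ j, y j • n j) (∑ j, y j • n j) = ∑ j, y j ^ 2 * L.b (n j) (n j) := by
    rw [L.b_sum_right]
    refine Finset.sum_congr rfl fun j _ => ?_
    rw [L.smul_right, L.comm, hb]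
    ring
  have hx' : ∃ i, x i ≠ 0 := by
    by_contra hcon
    push Not at hcon
    exact hx0 (funext hcon)
  obtain ⟨i, hi⟩ := hx'
  refine ⟨y, i, ?_, ?_⟩
  · rw [hsq]
    have h1 : ((∑ j, y j ^ 2 * L.b (n j) (n j) : ℤ) : ℚ) = 0 := by
      push_cast
      have e1 : ∀ j, (y j : ℚ) ^ 2 * (L.b (n j) (n j) : ℚ) =
          (D : ℚ) ^ 2 * ((L.b (n j) (n j) : ℚ) * x j ^ 2) := by
        intro j
        rw [hyx j]
        ring
      rw [Finset.sum_congr rfl fun j _ => e1 j, ← Finset.mul_sum, hx, mul_zero]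
    exact_mod_cast h1
  · rw [hb]
    refine mul_ne_zero ?_ (h0 i)
    intro h
    have := hyx i
    rw [h, Int.cast_zero] at this
    rcases mul_eq_zero.1 this.symm with h' | h'
    · exact hD0 (by exact_mod_cast h')
    · exact hi h'

end Lat

end Pool.Agent.Run7.h762.GS
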