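import Pool.Agent.Run7.h762.FM.Meyer5

/-!
# Even lattices of signature `(2, n)`, `n ≥ 4`, with a hyperbolic plane
-/

set_option autoImplicit false

namespace Pool.Agent.Run7.h762.GS

namespace Lat

open Module

variable {M : Type*} [AddCommGroup M] (L : Lat M)

/-- common kernels -/
theorem exists_ker {k : ℕ} (hk : k < finrank ℤ M) (c : Fin k → M) :
    ∃ w : M, w ≠ 0 ∧ ∀ i, L.b w (c i) = 0 := by
  classical
  let φ : M →ₗ[ℤ] (Fin k → ℤ) :=
    { toFun := fun w i => L.b w (c i)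
      map_add' := fun u v => by
        ext i
        exact L.add_left _ _ _
      map_smul' := fun n v => by
        ext i
        exact L.smul_left _ _ _ }
  have hni : ¬ Function.Injective φ := by
    intro hinj
    have h1 := LinearMap.finrank_le_finrank_of_injective hinj
    rw [Module.finrank_fin_fun] at h1
    omega
  rw [injective_iff_map_eq_zero] at hni
  push Not at hni
  obtain ⟨w, hw, hw0⟩ := hni
  exact ⟨w, hw0, fun i => congrFun hw i⟩

/-- **An isotropic vector in the orthogonal complement** (Meyer) -/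
theorem exists_u {p1 p2 : M} (hM : 6 ≤ finrank ℤ M) (hp1 : 0 < L.b p1 p1) (hp2 : 0 < L.b p2 p2)
    (hp12 : L.b p1 p2 = 0)
    (hneg : ∀ x, x ≠ 0 → L.b x p1 = 0 → L.b x p2 = 0 → L.b x x < 0) (v : M) :
    ∃ u z : M, L.b u u = 0 ∧ L.b u v = 0 ∧ L.b z u ≠ 0 := by
  -- a positive vector
  obtain ⟨π, hπv, hππ, hπ⟩ : ∃ π, L.b π v = 0 ∧ 0 < L.b π π ∧
      ∀ x, L.b x p1 = 0 → L.b x p2 = 0 → L.b x π = 0 := by
    by_cases h : L.b p1 v = 0
    · exact ⟨p1, h, hp1, fun x h1 _ => h1⟩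
    · refine ⟨L.b p2 v • p1 - L.b p1 v • p2, ?_, ?_, ?_⟩
      · rw [L.sub_left, L.smul_left, L.smul_left]
        ring
      · simp only [L.sub_left, L.sub_right, L.smul_left, L.smul_right, hp12, L.comm p2 p1]
        have h1 : 0 < L.b p1 v ^ 2 * L.b p2 p2 := by positivity
        have h2 : 0 ≤ L.b p2 v ^ 2 * L.b p1 p1 := by positivity
        nlinarith
      · intro x h1 h2
        rw [L.sub_right, L.smul_right, L.smul_right, h1, h2]
        ring
  obtain ⟨n1, hn10, hn1⟩ := L.exists_ker (k := 3) (by omega) ![p1, p2, v]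
  obtain ⟨n2, hn20, hn2⟩ := L.exists_ker (k := 4) (by omega) ![p1, p2, v, n1]
  obtain ⟨n3, hn30, hn3⟩ := L.exists_ker (k := 5) (by omega) ![p1, p2, v, n1, n2]
  obtain ⟨n5, hn50, hn5⟩ := L.exists_ker (k := 5) (by omega) ![v, π, n1, n2, n3]
  have a1 : L.b n1 p1 = 0 := hn1 0
  have a2 : L.b n1 p2 = 0 := hn1 1
  have a3 : L.b n1 v = 0 := hn1 2
  have b1 : L.b n2 p1 = 0 := hn2 0
  have b2 : L.b n2 p2 = 0 := hn2 1
  have b3 : L.b n2 v = 0 := hn2 2
  have b4 : L.b n2 n1 = 0 := hn2 3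
  have c1 : L.b n3 p1 = 0 := hn3 0
  have c2 : L.b n3 p2 = 0 := hn3 1
  have c3 : L.b n3 v = 0 := hn3 2
  have c4 : L.b n3 n1 = 0 := hn3 3
  have c5 : L.b n3 n2 = 0 := hn3 4
  have d1 : L.b n5 v = 0 := hn5 0
  have d2 : L.b n5 π = 0 := hn5 1
  have d3 : L.b n5 n1 = 0 := hn5 2
  have d4 : L.b n5 n2 = 0 := hn5 3
  have d5 : L.b n5 n3 = 0 := hn5 4
  have q1 := hπ n1 a1 a2
  have q2 := hπ n2 b1 b2
  have q3 := hπ n3 c1 c2
  have s1 := hneg n1 hn10 a1 a2
  have s2 := hneg n2 hn20 b1 b2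
  have s3 := hneg n3 hn30 c1 c2
  by_cases hs : L.b n5 n5 = 0
  · -- the vector is isotropic
    by_cases h1 : L.b n5 p1 = 0
    · by_cases h2 : L.b n5 p2 = 0
      · exact absurd hs (hneg n5 hn50 h1 h2).ne
      · exact ⟨n5, p2, hs, d1, by rwa [L.comm]⟩
    · exact ⟨n5, p1, hs, d1, by rwa [L.comm]⟩
  · have t12 := L.comm n2 n1
    have t13 := L.comm n3 n1
    have t23 := L.comm n3 n2
    have tπ1 := L.comm n1 π
    have tπ2 := L.comm n2 π
    have tπ3 := L.comm n3 π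
    have t51 := L.comm n1 n5
    have t52 := L.comm n2 n5
    have t53 := L.comm n3 n5
    have t5π := L.comm n5 π
    set n : Fin 5 → M := ![π, n1, n2, n3, n5] with hn
    have hnx : ∀ i, L.b (n i) v = 0 := by
      intro i
      fin_cases i
      · exact hπv
      · exact a3
      · exact b3
      · exact c3
      · exact d1
    have horth : ∀ i j, i ≠ j → L.b (n i) (n j) = 0 := by
      have key : ∀ i j, i < j → L.b (n i) (n j) = 0 := by
        intro i j hij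
        fin_cases i <;> fin_cases j <;> first
          | exact absurd hij (by decide)
          | (show L.b _ _ = 0; simp only [hn]; simp; omega)
      intro i j hij
      rcases lt_or_gt_of_ne hij with h | h
      · exact key i j h
      · rw [L.comm]
        exact key j i h
    obtain ⟨y, i, h1, h2⟩ := L.five (n := n) horth (by
      intro i
      fin_cases i
      · exact hππ.ne'
      · exact s1.ne
      · exact s2.ne
      · exact s3.ne
      · exact hs) ⟨0, hππ⟩ ⟨1, s1⟩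
    refine ⟨∑ j, y j • n j, n i, h1, ?_, h2⟩
    rw [L.comm, L.b_sum_right]
    refine Finset.sum_eq_zero fun j _ => ?_
    rw [L.smul_right, L.comm, hnx j, mul_zero]

/-- **The theorem for signature `(2, n)`, `n ≥ 4`.** -/
theorem fine_sig {p1 p2 : M} (hM : 6 ≤ finrank ℤ M) (hp1 : 0 < L.b p1 p1) (hp2 : 0 < L.b p2 p2)
    (hp12 : L.b p1 p2 = 0)
    (hneg : ∀ x, x ≠ 0 → L.b x p1 = 0 → L.b x p2 = 0 → L.b x x < 0) {e f v y0 : M}
    (he : L.b e e = 0) (hf : L.b f f = 0) (hef : L.b e f = 1) (hy0 : L.b y0 v = 1) :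
    ∃ w : M, L.b w w = 0 ∧ L.b w v = 1 := by
  by_cases hvv : L.b v v = 0
  · exact L.fine_zero hy0 hvv
  obtain ⟨u, z1, huu, huv, hz1⟩ := L.exists_u hM hp1 hp2 hp12 hneg v
  obtain ⟨w0, hw00, hw0⟩ := L.exists_ker (k := 4) (by omega) ![p1, p2, e, f]
  obtain ⟨w1, hw10, hw1⟩ := L.exists_ker (k := 4) (by omega) ![p1, p2, v, u]
  obtain ⟨w2, hw20, hw2⟩ := L.exists_ker (k := 5) (by omega) ![p1, p2, v, u, w1]
  have a1 : L.b w0 p1 = 0 := hw0 0
  have a2 : L.b w0 p2 = 0 := hw0 1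
  have a3 : L.b w0 e = 0 := hw0 2
  have a4 : L.b w0 f = 0 := hw0 3
  have b1 : L.b w1 p1 = 0 := hw1 0
  have b2 : L.b w1 p2 = 0 := hw1 1
  have b3 : L.b w1 v = 0 := hw1 2
  have b4 : L.b w1 u = 0 := hw1 3
  have c1 : L.b w2 p1 = 0 := hw2 0
  have c2 : L.b w2 p2 = 0 := hw2 1
  have c3 : L.b w2 v = 0 := hw2 2
  have c4 : L.b w2 u = 0 := hw2 3
  have c5 : L.b w2 w1 = 0 := hw2 4
  exact L.fine he hf hef a3 a4 (hneg w0 hw00 a1 a2).ne hy0 hvv huu huv hz1 b3 b4 c3 c4
    (by rw [L.comm]; exact c5) (hneg w1 hw10 b1 b2).ne (hneg w2 hw20 c1 c2).ne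

end Lat

end Pool.Agent.Run7.h762.GS
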